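import Pool.Agent.WAR.Exports
import Pool.Agent.WAR.Alg

/-!
# UFR: `UnP` does not depend on the frame
-/

namespace Pool.Agent.WAR.H23

open Classical Pool.Agent.WAR Pool.Agent.WAR.G

variable [Par]

theorem big_iff {F : Type} [NormedField F] {d d' : F} (N : ℝ) (φ : Pt d →+ Pt d')
    (hinj : ∀ R, φ R = 0 → R = 0) (hx : ∀ R, xn (φ R) = xn R) (R : Pt d) :
    Big N (φ R) ↔ Big N R := by
  have e : cX (φ R) / d' = cX R / d := hx R
  unfold Big
  rw [e]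
  constructor
  · rintro (h | h)
    · exact Or.inl (hinj R h)
    · exact Or.inr h
  · rintro (h | h)
    · left; rw [h]; exact map_zero φ
    · exact Or.inr h

theorem ufr : UfrStmt := by
  intro F _ ϖ hL d P Q hd hz hU
  haveI := hL.gd
  have h2 := hL.two_ne
  obtain ⟨d', P', Q', hd', hk, c, e, T', hce, hT', hB⟩ := hU
  obtain ⟨φ, h1, hx, -, -, -, hP, hQ, hs, ht⟩ := exists_transport h2 hz rfl
  obtain ⟨ψ, k1, kx, -, -, -, kP, kQ, ks, kt⟩ := exists_transport h2 hz hk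
  obtain ⟨T, hT, hTT⟩ : ∃ T : Pt d, IsT T ∧ φ T = ψ T' := by
    rcases hT' with h | h | h | h
    · refine ⟨0, Or.inl rfl, ?_⟩
      rw [h, map_zero, map_zero]
    · refine ⟨tor d 0, Or.inr (Or.inl rfl), ?_⟩
      rw [h, ht 0 cub_zero, kt 0 cub_zero]
    · refine ⟨tor d (ea F), Or.inr (Or.inr (Or.inl rfl)), ?_⟩
      rw [h, ht _ cub_ea, kt _ cub_ea]
    · refine ⟨tor d (eb F), Or.inr (Or.inr (Or.inr rfl)), ?_⟩
      rw [h, ht _ cub_eb, kt _ cub_eb]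
  refine ⟨c, e, T, hce, hT, ?_⟩
  rw [← big_iff 1 φ h1 hx]
  rw [← big_iff 1 ψ k1 kx] at hB
  rw [map_sub, map_add, ← ks, ← ks, kP, kQ, ← hTT, ← hP, ← hQ, hs, hs, ← map_add, ← map_sub] at hB
  exact hB

end Pool.Agent.WAR.H23
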